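import Pool.Agent.H983R2.ONJ.Model
import Pool.Agent.H983R2.ONJ.Gib2
import Pool.Agent.Y13.QM.Fin

/-!
# A lower bound for the mass of the two-dimensional N-vector models, N ≥ 3

For every exponentially decaying ferromagnetic coupling `J` on `ℤ²` there is a constant `C` such
that for every `N ≥ 3` and every `β > 0` the mass is at least `exp (-C (1 + β²))` and the
susceptibility is at most `exp (C (1 + β²))`.
-/

set_option autoImplicit false

noncomputable section

namespace Pool.Agent.Results.MP_8be4c0_mp.MassLowerBound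

open MeasureTheory Pool.Agent.H5R2.ON Pool.Agent.H717R2.ON3 Pool.Agent.H983R2.ONJ
open Pool.Agent.Y13.QM

/-- the couplings between different sites -/
def cJ (L : ℕ) [NeZero L] (J : ℤ × ℤ → ℝ) (β : ℝ) (e : Tor L × Tor L) : ℝ :=
  if e.1 = e.2 then 0 else β * Jper L J (e.1 - e.2)

theorem inner_self_one {N : ℕ} (s : Sph N) : inner ℝ (s : EuclideanSpace ℝ (Fin N)) s = (1 : ℝ) := by
  rw [real_inner_self_eq_norm_sq]
  have : ‖(s : EuclideanSpace ℝ (Fin N))‖ = 1 := by simp
  rw [this, one_pow]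

theorem en_eq {N : ℕ} (L : ℕ) [NeZero L] (J : ℤ × ℤ → ℝ) (β : ℝ) (S : Conf N L) :
    β * enJ L J S = pS (cJ L J β) S + ∑ _x : Tor L, β * Jper L J 0 := by
  unfold enJ pS
  have hsp : ∑ e : Tor L × Tor L, cJ L J β e *
      inner ℝ (S e.1 : EuclideanSpace ℝ (Fin N)) (S e.2) = ∑ x : Tor L, ∑ y : Tor L,
        cJ L J β (x, y) * inner ℝ (S x : EuclideanSpace ℝ (Fin N)) (S y) :=
    Fintype.sum_prod_type _
  rw [hsp, Finset.mul_sum, ← Finset.sum_add_distrib]
  refine Finset.sum_congr rfl fun x _ => ?_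
  have h : ∀ y : Tor L, β * (Jper L J (x - y) * inner ℝ (S x : EuclideanSpace ℝ (Fin N)) (S y))
      = cJ L J β (x, y) * inner ℝ (S x : EuclideanSpace ℝ (Fin N)) (S y)
        + if x = y then β * Jper L J 0 else 0 := by
    intro y
    unfold cJ
    by_cases hxy : x = y
    · subst hxy
      simp only [if_true, zero_mul, zero_add, sub_self]
      rw [inner_self_one, mul_one]
    · simp only [if_neg hxy, add_zero]
      ring
  rw [Finset.mul_sum, Finset.sum_congr rfl fun y _ => h y, Finset.sum_add_distrib,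
    Finset.sum_ite_eq]
  simp

theorem corr_eq (N L : ℕ) [NeZero L] (J : ℤ × ℤ → ℝ) (β : ℝ) (x y : Tor L) :
    corr N L J β x y = corS (N := N) (cJ L J β) x y := by
  unfold corr gibbs corS
  set κ : ℝ := ∑ _x : Tor L, β * Jper L J 0
  simp only [en_eq, Real.exp_add]
  have h1 : (fun S : Conf N L => inner ℝ (S x : EuclideanSpace ℝ (Fin N)) (S y) *
      (Real.exp (pS (cJ L J β) S) * Real.exp κ)) = fun S : Conf N L =>
      (inner ℝ (S x : EuclideanSpace ℝ (Fin N)) (S y) *
        Real.exp (pS (cJ L J β) S)) * Real.exp κ := by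
    funext S; ring
  rw [h1, integral_mul_const, integral_mul_const,
    mul_div_mul_right _ _ (Real.exp_pos _).ne']

/-- a one-dimensional exponential sum -/
theorem tsum_exp_int_le {b : ℝ} (hb : 0 < b) (hb1 : b ≤ 1) :
    ∑' k : ℤ, Real.exp (-b * |(k : ℝ)|) ≤ 4 / b := by
  have hr0 : 0 ≤ Real.exp (-b) := (Real.exp_pos _).le
  have hr1 : Real.exp (-b) < 1 := Real.exp_lt_one_iff.2 (by linarith)
  have hpow : ∀ n : ℕ, Real.exp (-b * (n : ℝ)) = Real.exp (-b) ^ n := by
    intro n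
    rw [← Real.exp_nat_mul]
    congr 1
    ring
  have hnat : ∑' n : ℕ, Real.exp (-b * (n : ℝ)) ≤ 2 / b := by
    have h0 : ∑' n : ℕ, Real.exp (-b * (n : ℝ)) = (1 - Real.exp (-b))⁻¹ := by
      rw [← tsum_geometric_of_lt_one hr0 hr1]
      exact tsum_congr hpow
    rw [h0]
    have h1 : b / 2 ≤ 1 - Real.exp (-b) := by
      have h2 := Real.add_one_le_exp b
      have h3 : Real.exp (-b) * Real.exp b = 1 := by
        rw [← Real.exp_add, neg_add_cancel, Real.exp_zero]
      have h4 : Real.exp (-b) ≤ 1 / (1 + b) := by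
        rw [le_div_iff₀ (by linarith)]
        nlinarith [Real.exp_pos (-b)]
      have h5 : 1 / (1 + b) ≤ 1 - b / 2 := by
        rw [div_le_iff₀ (by linarith)]
        nlinarith
      linarith
    calc (1 - Real.exp (-b))⁻¹ ≤ (b / 2)⁻¹ := inv_anti₀ (by linarith) h1
      _ = 2 / b := by rw [inv_div]
  have hs : Summable fun n : ℕ => Real.exp (-b * |((n : ℤ) : ℝ)|) := by
    have h : Summable fun n : ℕ => Real.exp (-b * (n : ℝ)) :=
      (summable_geometric_of_lt_one hr0 hr1).congr fun n => (hpow n).symm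
    refine h.congr fun n => ?_
    simp
  have hs' : Summable fun n : ℕ => Real.exp (-b * |((-(n : ℤ) : ℤ) : ℝ)|) := by
    refine hs.congr fun n => ?_
    simp
  have hsum := Summable.tsum_of_nat_of_neg (f := fun k : ℤ => Real.exp (-b * |(k : ℝ)|)) hs hs'
  rw [hsum]
  have e1 : ∑' n : ℕ, Real.exp (-b * |((n : ℤ) : ℝ)|) = ∑' n : ℕ, Real.exp (-b * (n : ℝ)) :=
    tsum_congr fun n => by simp
  have e2 : ∑' n : ℕ, Real.exp (-b * |((-(n : ℤ) : ℤ) : ℝ)|) =
      ∑' n : ℕ, Real.exp (-b * (n : ℝ)) := tsum_congr fun n => by simp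
  rw [e1, e2]
  have e3 : (0 : ℝ) < Real.exp (-b * |((0 : ℤ) : ℝ)|) := Real.exp_pos _
  have e4 : 4 / b = 2 / b + 2 / b := by ring
  rw [e4]
  exact (sub_le_self _ e3.le).trans (add_le_add hnat hnat)

/-- a two-dimensional exponential sum -/
theorem tsum_exp_znorm_le {b : ℝ} (hb : 0 < b) (hb1 : b ≤ 1) :
    ∑' k : ℤ × ℤ, Real.exp (-b * znorm k) ≤ 64 / b ^ 2 := by
  have h := summable_exp_int (b / 2) (by linarith)
  have h2 := h.mul_of_nonneg h (fun k => (Real.exp_pos _).le) (fun k => (Real.exp_pos _).le)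
  have h3 : ∀ k : ℤ × ℤ, Real.exp (-b * znorm k) ≤
      Real.exp (-(b / 2) * |(k.1 : ℝ)|) * Real.exp (-(b / 2) * |(k.2 : ℝ)|) := by
    intro k
    rw [← Real.exp_add]
    apply Real.exp_le_exp.2
    have h3 : |(k.1 : ℝ)| ≤ znorm k := by
      unfold znorm
      rw [← Real.sqrt_sq_eq_abs]
      exact Real.sqrt_le_sqrt (by nlinarith [sq_nonneg (k.2 : ℝ)])
    have h4 : |(k.2 : ℝ)| ≤ znorm k := by
      unfold znorm
      rw [← Real.sqrt_sq_eq_abs]
      exact Real.sqrt_le_sqrt (by nlinarith [sq_nonneg (k.1 : ℝ)])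
    nlinarith
  have h5 : ∑' k : ℤ × ℤ, Real.exp (-b * znorm k) ≤
      ∑' k : ℤ × ℤ, Real.exp (-(b / 2) * |(k.1 : ℝ)|) * Real.exp (-(b / 2) * |(k.2 : ℝ)|) :=
    (summable_exp_znorm b hb).tsum_le_tsum h3 h2
  refine h5.trans ?_
  rw [← h.tsum_mul_tsum h h2]
  have h6 := tsum_exp_int_le (b := b / 2) (by linarith) (by linarith)
  have h7 : 0 ≤ ∑' k : ℤ, Real.exp (-(b / 2) * |(k : ℝ)|) :=
    tsum_nonneg fun k => (Real.exp_pos _).le
  have h8 : 4 / (b / 2) = 8 / b := by
    field_simp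
    norm_num
  rw [h8] at h6
  calc (∑' k : ℤ, Real.exp (-(b / 2) * |(k : ℝ)|)) * ∑' k : ℤ, Real.exp (-(b / 2) * |(k : ℝ)|)
      ≤ (8 / b) * (8 / b) := mul_le_mul h6 h6 h7 (by positivity)
    _ = 64 / b ^ 2 := by
        field_simp
        norm_num

/-- **Lower bound for the mass.** Let `J` be any ferromagnetic, exponentially decaying coupling on
`ℤ²`. There is `C` such that for all `N ≥ 3` and `β > 0` the spin correlations on every torus and
in every infinite volume limit decay at rate `exp (-C (1 + β²))`; the susceptibility of every such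
limit is at most `exp (C (1 + β²))` and its mass is at least `exp (-C (1 + β²))`. -/
theorem result (J : ℤ × ℤ → ℝ) (hJ : Admissible J) :
    ∃ C : ℝ, 0 < C ∧ ∀ N : ℕ, 3 ≤ N → ∀ β : ℝ, 0 < β →
      (∀ (L : ℕ) [NeZero L] (x y : Tor L), |corr N L J β x y| ≤
        Real.exp 2 * Real.exp (-Real.exp (-(C * (1 + β ^ 2))) * tnorm (x - y))) ∧
      ∀ G : ℤ × ℤ → ℝ, IsLimitCorr N J β G →
        (∀ x, |G x| ≤ Real.exp 2 * Real.exp (-Real.exp (-(C * (1 + β ^ 2))) * znorm x)) ∧
        Summable G ∧ ∑' x, G x ≤ Real.exp (C * (1 + β ^ 2)) ∧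
        ∀ μ : ℝ, (∀ n : ℕ, 0 < G (n, 0)) →
          Filter.Tendsto (fun n : ℕ => -(1 / (n : ℝ)) * Real.log (G (n, 0))) Filter.atTop
            (nhds μ) → Real.exp (-(C * (1 + β ^ 2))) ≤ μ := by
  obtain ⟨A, a, ha, hJd⟩ := hJ.decay
  obtain ⟨A', hA', hper⟩ := Jper_le ha hJd
  obtain ⟨C0, hC0, hdec⟩ := corS_decay (a / 2) (by linarith)
  obtain ⟨C1, hC1⟩ : ∃ C1 : ℝ, C1 = C0 * (1 + A' ^ 2) := ⟨_, rfl⟩
  have hC1' : 1 ≤ C1 := by
    rw [hC1]
    nlinarith [sq_nonneg A', mul_nonneg (show 0 ≤ C0 by linarith) (sq_nonneg A')]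
  refine ⟨2 * C1 + 8, by linarith, ?_⟩
  intro N hN β hβ
  have hN0 : N ≠ 0 := by omega
  have hβ2 : 0 ≤ β ^ 2 := sq_nonneg β
  -- the rate for the coupling constant `β A'`
  obtain ⟨b, hb⟩ : ∃ b : ℝ, b = Real.exp (-(C1 * (1 + β ^ 2))) := ⟨_, rfl⟩
  have hb0 : 0 < b := by rw [hb]; exact Real.exp_pos _
  have hb1 : b ≤ 1 := by
    rw [hb]
    refine Real.exp_le_one_iff.2 ?_
    nlinarith
  have hrate : b ≤ Real.exp (-(C0 * (1 + (β * A') ^ 2))) := by
    rw [hb]
    refine Real.exp_le_exp.2 (neg_le_neg ?_)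
    rw [hC1, mul_assoc]
    refine mul_le_mul_of_nonneg_left ?_ (by linarith)
    nlinarith [sq_nonneg A', hβ2]
  have htor : ∀ (L : ℕ) [NeZero L] (x y : Tor L), 0 ≤ corr N L J β x y ∧
      |corr N L J β x y| ≤ Real.exp 2 * Real.exp (-b * tnorm (x - y)) := by
    intro L _ x y
    have hE : ExpC (β * A') (a / 2) (cJ L J β) := by
      intro e
      unfold cJ
      split_ifs with h
      · exact ⟨le_rfl, mul_nonneg (by positivity) (Real.exp_pos _).le⟩
      · refine ⟨mul_nonneg hβ.le (Jper_nonneg hJ.nonneg (sub_ne_zero.2 h)), ?_⟩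
        rw [mul_assoc, tnorm_sub_comm]
        exact mul_le_mul_of_nonneg_left (hper L _) hβ.le
    have h0 : 0 ≤ corr N L J β x y := by
      rw [corr_eq]
      exact corS_nonneg hN0 (fun e => (hE e).1) x y
    refine ⟨h0, ?_⟩
    rw [abs_of_nonneg h0, corr_eq]
    refine (hdec (β * A') (by positivity) N hN L (cJ L J β) hE x y).trans ?_
    refine mul_le_mul_of_nonneg_left (Real.exp_le_exp.2 ?_) (Real.exp_pos _).le
    have := tnorm_nonneg (x - y)
    nlinarith
  obtain ⟨b', hb'⟩ : ∃ b' : ℝ, b' = Real.exp (-((2 * C1 + 8) * (1 + β ^ 2))) := ⟨_, rfl⟩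
  have hb'b : b' ≤ b := by
    rw [hb', hb]
    refine Real.exp_le_exp.2 (neg_le_neg ?_)
    nlinarith
  rw [← hb']
  refine ⟨?_, ?_⟩
  · intro L _ x y
    refine (htor L x y).2.trans ?_
    refine mul_le_mul_of_nonneg_left (Real.exp_le_exp.2 ?_) (Real.exp_pos _).le
    have := tnorm_nonneg (x - y)
    nlinarith
  intro G hG
  obtain ⟨l, hl, hlim⟩ := hG
  have hbound : ∀ x, |G x| ≤ Real.exp 2 * Real.exp (-b * znorm x) := by
    intro x
    refine le_of_tendsto (hlim x).abs ?_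
    filter_upwards [hl.eventually_ge_atTop (2 * (x.1.natAbs + x.2.natAbs))] with n hn
    refine (htor (l n + 1) _ _).2.trans (le_of_eq ?_)
    congr 2
    rw [zero_sub, tnorm_neg]
    have h1 : |x.1| * 2 < ((l n + 1 : ℕ) : ℤ) := by
      have : (|x.1| : ℤ) = x.1.natAbs := (Int.natCast_natAbs x.1).symm
      rw [this]; push_cast; omega
    have h2 : |x.2| * 2 < ((l n + 1 : ℕ) : ℤ) := by
      have : (|x.2| : ℤ) = x.2.natAbs := (Int.natCast_natAbs x.2).symm
      rw [this]; push_cast; omega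
    have := tnorm_cast (L := l n + 1) x.1 x.2 (by exact_mod_cast h1) (by exact_mod_cast h2)
    rw [this]
    rfl
  have hsum : Summable G := by
    refine Summable.of_norm_bounded (g := fun x => Real.exp 2 * Real.exp (-b * znorm x))
      ((summable_exp_znorm b hb0).mul_left _) fun x => ?_
    rw [Real.norm_eq_abs]
    exact hbound x
  refine ⟨?_, hsum, ?_, ?_⟩
  · intro x
    refine (hbound x).trans ?_
    refine mul_le_mul_of_nonneg_left (Real.exp_le_exp.2 ?_) (Real.exp_pos _).le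
    have : 0 ≤ znorm x := Real.sqrt_nonneg _
    nlinarith
  · have h1 : ∑' x, G x ≤ ∑' x : ℤ × ℤ, Real.exp 2 * Real.exp (-b * znorm x) :=
      hsum.tsum_le_tsum (fun x => (le_abs_self _).trans (hbound x))
        ((summable_exp_znorm b hb0).mul_left _)
    rw [tsum_mul_left] at h1
    have h2 := tsum_exp_znorm_le hb0 hb1
    have h3 : Real.exp 2 * ∑' x : ℤ × ℤ, Real.exp (-b * znorm x) ≤ Real.exp 2 * (64 / b ^ 2) :=
      mul_le_mul_of_nonneg_left h2 (Real.exp_pos _).le
    refine (h1.trans h3).trans ?_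
    have h4 : (64 : ℝ) ≤ Real.exp 6 := by
      have h5 : (2 : ℝ) ≤ Real.exp 1 := by
        have := Real.add_one_le_exp (1 : ℝ)
        linarith
      have h6 : Real.exp 6 = Real.exp 1 ^ 6 := by
        rw [← Real.exp_nat_mul]
        norm_num
      rw [h6]
      calc (64 : ℝ) = 2 ^ 6 := by norm_num
        _ ≤ Real.exp 1 ^ 6 := pow_le_pow_left₀ (by norm_num) h5 6
    have h7 : 64 / b ^ 2 = 64 * Real.exp (2 * (C1 * (1 + β ^ 2))) := by
      rw [hb, ← Real.exp_nat_mul, div_eq_mul_inv, ← Real.exp_neg]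
      congr 2
      push_cast
      ring
    rw [h7]
    calc Real.exp 2 * (64 * Real.exp (2 * (C1 * (1 + β ^ 2))))
        ≤ Real.exp 2 * (Real.exp 6 * Real.exp (2 * (C1 * (1 + β ^ 2)))) := by
          refine mul_le_mul_of_nonneg_left ?_ (Real.exp_pos _).le
          exact mul_le_mul_of_nonneg_right h4 (Real.exp_pos _).le
      _ = Real.exp (8 + 2 * (C1 * (1 + β ^ 2))) := by
          rw [← Real.exp_add, ← Real.exp_add]
          congr 1
          ring
      _ ≤ Real.exp ((2 * C1 + 8) * (1 + β ^ 2)) := by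
          refine Real.exp_le_exp.2 ?_
          nlinarith
  · intro μ hpos hμ
    refine hb'b.trans ?_
    have hlow : ∀ᶠ n : ℕ in Filter.atTop, b - 2 / n ≤
        -(1 / (n : ℝ)) * Real.log (G (n, 0)) := by
      filter_upwards [Filter.eventually_gt_atTop 0] with n hn
      have hn' : (0 : ℝ) < n := by exact_mod_cast hn
      have h1 := hbound (n, 0)
      rw [abs_of_pos (hpos n)] at h1
      have h2 : znorm ((n : ℤ), (0 : ℤ)) = n := by
        unfold znorm
        simp
      rw [h2] at h1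
      have h3 : Real.log (G (n, 0)) ≤ 2 + -b * n := by
        have := Real.log_le_log (hpos n) h1
        rw [← Real.exp_add, Real.log_exp] at this
        exact this
      have h4 : b - 2 / n = -(1 / (n : ℝ)) * (2 + -b * n) := by
        field_simp
        ring
      rw [h4]
      have h5 : (0 : ℝ) < 1 / n := by positivity
      nlinarith
    have hlim2 : Filter.Tendsto (fun n : ℕ => b - 2 / (n : ℝ)) Filter.atTop
        (nhds (b - 0)) :=
      tendsto_const_nhds.sub (tendsto_const_div_atTop_nhds_zero_nat _)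
    rw [sub_zero] at hlim2
    exact le_of_tendsto_of_tendsto hlim2 hμ hlow

end Pool.Agent.Results.MP_8be4c0_mp.MassLowerBound
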