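import Pool.Agent.H983R2.ONJ.Fin
import Pool.Agent.H983R2.ONJ.Model
import Pool.Agent.H983R2.ONJ.Gib2
import Pool.Agent.H983R2.ONJ.Per

/-!
# Mass gap of all quasi-two-dimensional ferromagnetic N-vector models, `N ≥ 3`, with arbitrary
inhomogeneous couplings

The sites are any set `V` with a map `p : V → ℝ²` to the plane such that every unit cell contains
at most `W` of the points `p x`; the couplings `J x y` are arbitrary numbers between `0` and
`A exp (-a |p x - p y|)` (no translation invariance, no reflection positivity). The correlations in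
all finite subsets of `V` decay exponentially in `|p x - p y|` with constants which depend only on
`N`, `A`, `a` and `W`.

The theorem is deduced from the team's theorem on inhomogeneous couplings on tori (`corJ_decay`,
helpers 717, 983, 269 and others) by an embedding.
-/

set_option autoImplicit false

noncomputable section

namespace Pool.Agent.Results.MP_8be4c0_mp.QuasiTwoDimensional

open MeasureTheory Pool.Agent.H5R2.ON Pool.Agent.H717R2.ON3 Pool.Agent.H983R2.ONJ

/-- The Euclidean distance in the plane. -/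
def dist2 (u v : ℝ × ℝ) : ℝ := Real.sqrt ((u.1 - v.1) ^ 2 + (u.2 - v.2) ^ 2)

/-- Every unit cell `[m, m + 1) × [n, n + 1)` contains at most `W` of the points `p x`. -/
def CellBound {V : Type} (p : V → ℝ × ℝ) (W : ℕ) : Prop :=
  ∀ m n : ℤ, Set.encard {x : V | ⌊(p x).1⌋ = m ∧ ⌊(p x).2⌋ = n} ≤ W

/-- The couplings between different sites are ferromagnetic and at most
`A exp (-a |p x - p y|)`. -/
def IsCoupling {V : Type} (p : V → ℝ × ℝ) (A a : ℝ) (J : V → V → ℝ) : Prop :=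
  ∀ x y, x ≠ y → 0 ≤ J x y ∧ J x y ≤ A * Real.exp (-a * dist2 (p x) (p y))

/-- `∑_{x, y ∈ Λ} J x y S_x · S_y`, minus the energy times the inverse temperature. -/
def energy {V : Type} {N : ℕ} (J : V → V → ℝ) (Λ : Finset V) (S : Λ → Sph N) : ℝ :=
  ∑ x : Λ, ∑ y : Λ, J x y * inner ℝ (S x : EuclideanSpace ℝ (Fin N)) (S y)

open Classical in
/-- The two point function `⟨S_x · S_y⟩` of the N-vector model in the finite set `Λ` (free
boundary conditions); it is `0` if `x` or `y` is not in `Λ`. -/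
def corr {V : Type} (N : ℕ) (J : V → V → ℝ) (Λ : Finset V) (x y : V) : ℝ :=
  if h : x ∈ Λ ∧ y ∈ Λ then
    (∫ S : Λ → Sph N, inner ℝ (S ⟨x, h.1⟩ : EuclideanSpace ℝ (Fin N)) (S ⟨y, h.2⟩) *
        Real.exp (energy J Λ S) ∂(Measure.pi fun _ => unif N)) /
      ∫ S : Λ → Sph N, Real.exp (energy J Λ S) ∂(Measure.pi fun _ => unif N)
  else 0

/-- The two point function `⟨S_x · S_y⟩` of the N-vector model with the couplings `c (x, y)` on
the torus `(ℤ/L)²` (periodic boundary conditions). -/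
def torusCorr (N : ℕ) {L : ℕ} [NeZero L] (c : Tor L × Tor L → ℝ) (x y : Tor L) : ℝ :=
  (∫ S : Conf N L, inner ℝ (S x : EuclideanSpace ℝ (Fin N)) (S y) *
      Real.exp (∑ e, c e * inner ℝ (S e.1 : EuclideanSpace ℝ (Fin N)) (S e.2)) ∂(prior N L)) /
    ∫ S : Conf N L, Real.exp (∑ e, c e * inner ℝ (S e.1 : EuclideanSpace ℝ (Fin N)) (S e.2))
      ∂(prior N L)

/-! ### the embedding -/

theorem exists_idx {V : Type} (Λ : Finset V) (z : V → ℤ × ℤ) (W : ℕ)
    (hW : ∀ w, {x ∈ (Λ : Set V) | z x = w}.encard ≤ W) :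
    ∃ idx : V → ℕ, (∀ x ∈ Λ, idx x < W) ∧ ∀ x ∈ Λ, ∀ y ∈ Λ, z x = z y → idx x = idx y → x = y := by
  classical
  let e := Λ.equivFin
  let enc : V → ℕ := fun x => if h : x ∈ Λ then (e ⟨x, h⟩ : ℕ) else 0
  have henc : ∀ x ∈ Λ, ∀ y ∈ Λ, enc x = enc y → x = y := by
    intro x hx y hy h
    simp only [enc, dif_pos hx, dif_pos hy] at h
    have := e.injective (Fin.ext h)
    exact congrArg Subtype.val this
  have hcard : ∀ w, (Λ.filter fun x => z x = w).card ≤ W := by
    intro w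
    have h1 := hW w
    have h2 : {x ∈ (Λ : Set V) | z x = w} = ((Λ.filter fun x => z x = w : Finset V) : Set V) := by
      ext x; simp
    rw [h2, Set.encard_coe_eq_coe_finsetCard] at h1
    exact_mod_cast h1
  refine ⟨fun x => (Λ.filter fun y => z y = z x ∧ enc y < enc x).card, ?_, ?_⟩
  · intro x hx
    refine lt_of_lt_of_le (Finset.card_lt_card ?_) (hcard (z x))
    rw [Finset.ssubset_iff_of_subset]
    · exact ⟨x, by simp [hx], by simp⟩
    · intro y hy
      simp only [Finset.mem_filter] at hy ⊢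
      exact ⟨hy.1, hy.2.1⟩
  · have key : ∀ x ∈ Λ, ∀ y ∈ Λ, z x = z y → enc x < enc y →
        (Λ.filter fun w => z w = z x ∧ enc w < enc x).card <
          (Λ.filter fun w => z w = z y ∧ enc w < enc y).card := by
      intro x hx y hy hz hlt
      refine Finset.card_lt_card ?_
      rw [Finset.ssubset_iff_of_subset]
      · exact ⟨x, by simp [hx, hz, hlt], by simp⟩
      · intro w hw
        simp only [Finset.mem_filter] at hw ⊢
        exact ⟨hw.1, hw.2.1.trans hz, hw.2.2.trans hlt⟩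
    intro x hx y hy hz h
    rcases lt_trichotomy (enc x) (enc y) with h1 | h1 | h1
    · exact absurd h (key x hx y hy hz h1).ne
    · exact henc x hx y hy h1
    · exact absurd h.symm (key y hy x hx hz.symm h1).ne

theorem dist2_nonneg (u v : ℝ × ℝ) : 0 ≤ dist2 u v := Real.sqrt_nonneg _

theorem abs_fst_le (u v : ℝ × ℝ) : |u.1 - v.1| ≤ dist2 u v := by
  unfold dist2
  rw [← Real.sqrt_sq_eq_abs]
  exact Real.sqrt_le_sqrt (by nlinarith [sq_nonneg (u.2 - v.2)])

theorem abs_snd_le (u v : ℝ × ℝ) : |u.2 - v.2| ≤ dist2 u v := by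
  unfold dist2
  rw [← Real.sqrt_sq_eq_abs]
  exact Real.sqrt_le_sqrt (by nlinarith [sq_nonneg (u.1 - v.1)])

theorem dist2_le (u v : ℝ × ℝ) : dist2 u v ≤ |u.1 - v.1| + |u.2 - v.2| := by
  unfold dist2
  refine Real.sqrt_le_iff.2 ⟨by positivity, ?_⟩
  have h1 := sq_abs (u.1 - v.1)
  have h2 := sq_abs (u.2 - v.2)
  nlinarith [mul_nonneg (abs_nonneg (u.1 - v.1)) (abs_nonneg (u.2 - v.2))]

theorem znorm_nonneg (x : ℤ × ℤ) : 0 ≤ znorm x := Real.sqrt_nonneg _

theorem abs_fst_le_znorm (x : ℤ × ℤ) : |(x.1 : ℝ)| ≤ znorm x := by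
  unfold znorm
  rw [← Real.sqrt_sq_eq_abs]
  exact Real.sqrt_le_sqrt (by nlinarith [sq_nonneg (x.2 : ℝ)])

theorem abs_snd_le_znorm (x : ℤ × ℤ) : |(x.2 : ℝ)| ≤ znorm x := by
  unfold znorm
  rw [← Real.sqrt_sq_eq_abs]
  exact Real.sqrt_le_sqrt (by nlinarith [sq_nonneg (x.1 : ℝ)])

theorem znorm_le (x : ℤ × ℤ) : znorm x ≤ |(x.1 : ℝ)| + |(x.2 : ℝ)| := by
  unfold znorm
  refine Real.sqrt_le_iff.2 ⟨by positivity, ?_⟩
  have h1 := sq_abs (x.1 : ℝ)
  have h2 := sq_abs (x.2 : ℝ)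
  nlinarith [mul_nonneg (abs_nonneg (x.1 : ℝ)) (abs_nonneg (x.2 : ℝ))]

/-- The position of `x` after the embedding into `ℤ²`. -/
def pos {V : Type} (p : V → ℝ × ℝ) (W : ℕ) (idx : V → ℕ) (x : V) : ℤ × ℤ :=
  (W * ⌊(p x).1⌋ + idx x, ⌊(p x).2⌋)

theorem pos_dist {V : Type} (p : V → ℝ × ℝ) (W : ℕ) (idx : V → ℕ) (x y : V)
    (hx : idx x < W) (hy : idx y < W) :
    znorm (pos p W idx y - pos p W idx x) ≤ 2 * (W + 1) * dist2 (p x) (p y) + 2 * (W + 1) ∧
      dist2 (p x) (p y) ≤ 2 * znorm (pos p W idx x - pos p W idx y) + 3 := by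
  have hx' : (idx x : ℝ) < W := by exact_mod_cast hx
  have hy' : (idx y : ℝ) < W := by exact_mod_cast hy
  have hx0 : (0 : ℝ) ≤ idx x := by positivity
  have hy0 : (0 : ℝ) ≤ idx y := by positivity
  have hW1 : (1 : ℝ) ≤ W := by
    have : 1 ≤ W := by omega
    exact_mod_cast this
  have a1 := Int.floor_le (p x).1
  have a2 := Int.lt_floor_add_one (p x).1
  have a3 := Int.floor_le (p y).1
  have a4 := Int.lt_floor_add_one (p y).1
  have b1 := Int.floor_le (p x).2
  have b2 := Int.lt_floor_add_one (p x).2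
  have b3 := Int.floor_le (p y).2
  have b4 := Int.lt_floor_add_one (p y).2
  have d1 := abs_fst_le (p x) (p y)
  have d2 := abs_snd_le (p x) (p y)
  have d3 := dist2_le (p x) (p y)
  obtain ⟨X, hX⟩ : ∃ X : ℝ, X = ((⌊(p x).1⌋ : ℤ) : ℝ) := ⟨_, rfl⟩
  obtain ⟨X', hX'⟩ : ∃ X' : ℝ, X' = ((⌊(p y).1⌋ : ℤ) : ℝ) := ⟨_, rfl⟩
  obtain ⟨Y, hY⟩ : ∃ Y : ℝ, Y = ((⌊(p x).2⌋ : ℤ) : ℝ) := ⟨_, rfl⟩
  obtain ⟨Y', hY'⟩ : ∃ Y' : ℝ, Y' = ((⌊(p y).2⌋ : ℤ) : ℝ) := ⟨_, rfl⟩
  rw [← hX] at a1 a2
  rw [← hX'] at a3 a4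
  rw [← hY] at b1 b2
  rw [← hY'] at b3 b4
  obtain ⟨D, hD⟩ : ∃ D : ℝ, D = dist2 (p x) (p y) := ⟨_, rfl⟩
  rw [← hD] at d1 d2 d3 ⊢
  have hD0 : 0 ≤ D := hD ▸ dist2_nonneg _ _
  constructor
  · refine (znorm_le _).trans ?_
    have e1 : (((pos p W idx y - pos p W idx x).1 : ℤ) : ℝ) =
        W * (X' - X) + ((idx y : ℝ) - idx x) := by
      rw [hX, hX']
      simp only [pos, Prod.fst_sub]
      push_cast
      ring
    have e2 : (((pos p W idx y - pos p W idx x).2 : ℤ) : ℝ) = Y' - Y := by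
      rw [hY, hY']
      simp only [pos, Prod.snd_sub]
      push_cast
      ring
    rw [e1, e2]
    have h1 : |X' - X| ≤ D + 1 := by
      rw [abs_le] at d1 ⊢
      constructor <;> linarith
    have h2 : |Y' - Y| ≤ D + 1 := by
      rw [abs_le] at d2 ⊢
      constructor <;> linarith
    have h3 : |(idx y : ℝ) - idx x| ≤ W := by
      rw [abs_le]
      constructor <;> linarith
    have h4 : |(W : ℝ) * (X' - X) + ((idx y : ℝ) - idx x)| ≤ W * (D + 1) + W := by
      refine (abs_add_le _ _).trans ?_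
      rw [abs_mul, abs_of_nonneg (by linarith : (0 : ℝ) ≤ W)]
      have := mul_le_mul_of_nonneg_left h1 (by linarith : (0 : ℝ) ≤ W)
      linarith
    nlinarith
  · have f1 := abs_fst_le_znorm (pos p W idx x - pos p W idx y)
    have f2 := abs_snd_le_znorm (pos p W idx x - pos p W idx y)
    have e1 : (((pos p W idx x - pos p W idx y).1 : ℤ) : ℝ) =
        W * (X - X') + ((idx x : ℝ) - idx y) := by
      rw [hX, hX']
      simp only [pos, Prod.fst_sub]
      push_cast
      ring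
    have e2 : (((pos p W idx x - pos p W idx y).2 : ℤ) : ℝ) = Y - Y' := by
      rw [hY, hY']
      simp only [pos, Prod.snd_sub]
      push_cast
      ring
    rw [e1] at f1
    rw [e2] at f2
    obtain ⟨Z, hZ⟩ : ∃ Z : ℝ, Z = znorm (pos p W idx x - pos p W idx y) := ⟨_, rfl⟩
    rw [← hZ] at f1 f2 ⊢
    have hZ0 : 0 ≤ Z := hZ ▸ znorm_nonneg _
    have h1 : |X - X'| ≤ Z + 1 := by
      rw [abs_le] at f1 ⊢
      constructor
      · by_contra hcon
        push Not at hcon
        nlinarith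
      · by_contra hcon
        push Not at hcon
        nlinarith
    have h2 : |(p x).1 - (p y).1| ≤ Z + 2 := by
      rw [abs_le] at h1 ⊢
      constructor <;> linarith
    have h3 : |(p x).2 - (p y).2| ≤ Z + 1 := by
      rw [abs_le] at f2 ⊢
      constructor <;> linarith
    linarith

/-! ### the transfer to a torus -/

theorem map_comp_pi {α γ X : Type*} [Fintype α] [Fintype γ] [MeasurableSpace X]
    (μ : Measure X) [IsProbabilityMeasure μ] (f : α → γ) (hf : Function.Injective f) :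
    Measure.map (fun S : γ → X => fun a => S (f a)) (Measure.pi fun _ => μ) =
      Measure.pi fun _ => μ := by
  classical
  symm
  apply Measure.pi_eq
  intro s hs
  have hm : Measurable (fun S : γ → X => fun a => S (f a)) :=
    measurable_pi_lambda _ fun a => measurable_pi_apply (f a)
  rw [Measure.map_apply hm (MeasurableSet.univ_pi hs)]
  have hpre : (fun S : γ → X => fun a => S (f a)) ⁻¹' (Set.pi Set.univ s) =
      Set.pi Set.univ (Function.extend f s fun _ => Set.univ) := by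
    ext S
    simp only [Set.mem_preimage, Set.mem_pi, Set.mem_univ, true_implies]
    constructor
    · intro h b
      by_cases hb : ∃ a, f a = b
      · obtain ⟨a, rfl⟩ := hb
        rw [hf.extend_apply]
        exact h a
      · rw [Function.extend_apply' _ _ _ hb]
        trivial
    · intro h a
      have := h (f a)
      rwa [hf.extend_apply] at this
  rw [hpre, Measure.pi_pi]
  symm
  refine Fintype.prod_of_injective f hf _ _ ?_ ?_
  · intro b hb
    rw [Function.extend_apply' _ _ _ hb]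
    exact measure_univ
  · intro a
    rw [hf.extend_apply]

/-- the point of the torus -/
def ct (L : ℕ) (x : ℤ × ℤ) : Tor L := ((x.1 : ZMod L), (x.2 : ZMod L))

theorem ct_sub (L : ℕ) (x y : ℤ × ℤ) : ct L x - ct L y = ct L (x - y) := by
  simp [ct]

/-- the size of a finite set of positions -/
def siz {V : Type} (Λ : Finset V) (q : V → ℤ × ℤ) : ℕ := ∑ x ∈ Λ, ((q x).1.natAbs + (q x).2.natAbs)

theorem le_siz {V : Type} {Λ : Finset V} {q : V → ℤ × ℤ} {x : V} (hx : x ∈ Λ) :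
    (q x).1.natAbs + (q x).2.natAbs ≤ siz Λ q :=
  Finset.single_le_sum (f := fun x : V => (q x).1.natAbs + (q x).2.natAbs)
    (fun _ _ => Nat.zero_le _) hx

theorem tnorm_ct {V : Type} {Λ : Finset V} {q : V → ℤ × ℤ} {x y : V} (hx : x ∈ Λ) (hy : y ∈ Λ) :
    tnorm (ct (4 * siz Λ q + 3) (q x) - ct (4 * siz Λ q + 3) (q y)) = znorm (q x - q y) := by
  rw [ct_sub]
  have h1 := le_siz (q := q) hx
  have h2 := le_siz (q := q) hy
  have h3 : |(q x - q y).1| * 2 < ((4 * siz Λ q + 3 : ℕ) : ℤ) := by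
    rw [Prod.fst_sub]
    have e : (|(q x).1 - (q y).1| : ℤ) = ((q x).1 - (q y).1).natAbs := (Int.natCast_natAbs _).symm
    rw [e]
    omega
  have h4 : |(q x - q y).2| * 2 < ((4 * siz Λ q + 3 : ℕ) : ℤ) := by
    rw [Prod.snd_sub]
    have e : (|(q x).2 - (q y).2| : ℤ) = ((q x).2 - (q y).2).natAbs := (Int.natCast_natAbs _).symm
    rw [e]
    omega
  have h := tnorm_cast (L := 4 * siz Λ q + 3) (q x - q y).1 (q x - q y).2 (by exact_mod_cast h3)
    (by exact_mod_cast h4)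
  unfold ct znorm
  rw [h]

theorem znorm_eq_zero {x : ℤ × ℤ} (h : znorm x = 0) : x = 0 := by
  have h1 := abs_fst_le_znorm x
  have h2 := abs_snd_le_znorm x
  rw [h] at h1 h2
  have h3 : (x.1 : ℝ) = 0 := abs_eq_zero.1 (le_antisymm h1 (abs_nonneg _))
  have h4 : (x.2 : ℝ) = 0 := abs_eq_zero.1 (le_antisymm h2 (abs_nonneg _))
  exact Prod.ext (by exact_mod_cast h3) (by exact_mod_cast h4)

section transfer

variable {V : Type} {N : ℕ} (Λ : Finset V) (q : V → ℤ × ℤ) (J : V → V → ℝ)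

/-- the sites of the torus -/
def P (x : Λ) : Tor (4 * siz Λ q + 3) := ct (4 * siz Λ q + 3) (q x)

theorem P_inj (hq : ∀ x ∈ Λ, ∀ y ∈ Λ, q x = q y → x = y) : Function.Injective (P Λ q) := by
  intro x y h
  have h1 := tnorm_ct (q := q) x.2 y.2
  unfold P at h
  rw [h, sub_self] at h1
  have h2 : tnorm (0 : Tor (4 * siz Λ q + 3)) = 0 := by
    simp [tnorm]
  rw [h2] at h1
  exact Subtype.ext (hq _ x.2 _ y.2 (sub_eq_zero.1 (znorm_eq_zero h1.symm)))

open Classical in
/-- the couplings on the torus -/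
def cpl (e : Tor (4 * siz Λ q + 3) × Tor (4 * siz Λ q + 3)) : ℝ :=
  Function.extend (fun r : Λ × Λ => (P Λ q r.1, P Λ q r.2))
    (fun r : Λ × Λ => if r.1 = r.2 then 0 else J r.1 r.2) (fun _ => 0) e

theorem pair_inj (hq : ∀ x ∈ Λ, ∀ y ∈ Λ, q x = q y → x = y) :
    Function.Injective (fun r : Λ × Λ => (P Λ q r.1, P Λ q r.2)) := by
  intro r s h
  simp only [Prod.mk.injEq] at h
  exact Prod.ext (P_inj Λ q hq h.1) (P_inj Λ q hq h.2)

theorem expC_cpl (hq : ∀ x ∈ Λ, ∀ y ∈ Λ, q x = q y → x = y) {A a : ℝ} (hA : 0 ≤ A)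
    (hJ : ∀ x ∈ Λ, ∀ y ∈ Λ, x ≠ y → 0 ≤ J x y ∧ J x y ≤ A * Real.exp (-a * znorm (q y - q x))) :
    ExpC A a (cpl Λ q J) := by
  classical
  intro e
  unfold cpl
  by_cases he : ∃ r : Λ × Λ, (P Λ q r.1, P Λ q r.2) = e
  · obtain ⟨r, rfl⟩ := he
    rw [(pair_inj Λ q hq).extend_apply (fun r : Λ × Λ => if r.1 = r.2 then (0 : ℝ) else J r.1 r.2)
      (fun _ => 0) r]
    split_ifs with h
    · exact ⟨le_rfl, mul_nonneg hA (Real.exp_pos _).le⟩
    · have h1 := hJ r.1 r.1.2 r.2 r.2.2 (fun h2 => h (Subtype.ext h2))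
      refine ⟨h1.1, h1.2.trans (le_of_eq ?_)⟩
      have h2 := tnorm_ct (q := q) r.2.2 r.1.2
      unfold P
      simp only
      rw [h2]
  · rw [Function.extend_apply' _ _ _ he]
    exact ⟨le_rfl, mul_nonneg hA (Real.exp_pos _).le⟩

theorem energy_eq (hq : ∀ x ∈ Λ, ∀ y ∈ Λ, q x = q y → x = y)
    (S : Conf N (4 * siz Λ q + 3)) :
    energy J Λ (fun x : Λ => S (P Λ q x)) = pS (cpl Λ q J) S + ∑ x : Λ, J x x := by
  classical
  have h1 : pS (cpl Λ q J) S = ∑ r : Λ × Λ, (if r.1 = r.2 then 0 else J r.1 r.2) *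
      inner ℝ (S (P Λ q r.1) : EuclideanSpace ℝ (Fin N)) (S (P Λ q r.2)) := by
    unfold pS
    symm
    refine Fintype.sum_of_injective (fun r : Λ × Λ => (P Λ q r.1, P Λ q r.2))
      (pair_inj Λ q hq) _ _ ?_ ?_
    · intro e he
      have : cpl Λ q J e = 0 := by
        unfold cpl
        rw [Function.extend_apply' _ _ _ (by simpa using he)]
      rw [this, zero_mul]
    · intro r
      have : cpl Λ q J (P Λ q r.1, P Λ q r.2) = if r.1 = r.2 then 0 else J r.1 r.2 :=
        (pair_inj Λ q hq).extend_apply (fun r : Λ × Λ => if r.1 = r.2 then (0 : ℝ) else J r.1 r.2)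
          (fun _ => 0) r
      rw [this]
  rw [h1, Fintype.sum_prod_type, ← Finset.sum_add_distrib]
  unfold energy
  refine Finset.sum_congr rfl fun x _ => ?_
  have h2 : ∀ y : Λ, J x y * inner ℝ (S (P Λ q x) : EuclideanSpace ℝ (Fin N)) (S (P Λ q y)) =
      (if x = y then 0 else J x y) *
        inner ℝ (S (P Λ q x) : EuclideanSpace ℝ (Fin N)) (S (P Λ q y)) +
      if x = y then J x x else 0 := by
    intro y
    by_cases hxy : x = y
    · subst hxy
      have : inner ℝ (S (P Λ q x) : EuclideanSpace ℝ (Fin N)) (S (P Λ q x)) = (1 : ℝ) := by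
        rw [real_inner_self_eq_norm_sq]
        have : ‖(S (P Λ q x) : EuclideanSpace ℝ (Fin N))‖ = 1 := by simp
        rw [this, one_pow]
      simp [this]
    · simp [hxy]
  rw [Finset.sum_congr rfl fun y _ => h2 y, Finset.sum_add_distrib, Finset.sum_ite_eq]
  simp

theorem continuous_energy : Continuous (energy (N := N) J Λ) := by
  unfold energy
  fun_prop

theorem corr_eq (hN : N ≠ 0) (hq : ∀ x ∈ Λ, ∀ y ∈ Λ, q x = q y → x = y) {x y : V}
    (hx : x ∈ Λ) (hy : y ∈ Λ) :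
    corr N J Λ x y = ∑ i : Fin N, corJ (cpl Λ q J) i (P Λ q ⟨x, hx⟩) (P Λ q ⟨y, hy⟩) := by
  have := unif_isProbabilityMeasure N hN
  have hinj := P_inj Λ q hq
  have hmap := map_comp_pi (unif N) (P Λ q) hinj
  have hm : Measurable (fun S : Conf N (4 * siz Λ q + 3) => fun x : Λ => S (P Λ q x)) :=
    measurable_pi_lambda _ fun a => measurable_pi_apply _
  have key : ∀ F : (Λ → Sph N) → ℝ, Continuous F → ∫ S, F S ∂(Measure.pi fun _ => unif N) =
      ∫ S : Conf N (4 * siz Λ q + 3), F (fun x : Λ => S (P Λ q x))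
        ∂(prior N (4 * siz Λ q + 3)) := by
    intro F hF
    rw [← hmap, integral_map hm.aemeasurable hF.aestronglyMeasurable]
    rfl
  have hce := continuous_energy (N := N) Λ J
  unfold corr
  rw [dif_pos ⟨hx, hy⟩, key _ (by fun_prop), key _ (by fun_prop)]
  simp only [energy_eq Λ q J hq, Real.exp_add]
  set κ : ℝ := Real.exp (∑ x : Λ, J x x) with hκ
  have hκ0 : κ ≠ 0 := (Real.exp_pos _).ne'
  have h1 : (fun S : Conf N (4 * siz Λ q + 3) =>
      inner ℝ (S (P Λ q ⟨x, hx⟩) : EuclideanSpace ℝ (Fin N)) (S (P Λ q ⟨y, hy⟩)) *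
      (Real.exp (pS (cpl Λ q J) S) * κ)) = fun S : Conf N (4 * siz Λ q + 3) =>
      (inner ℝ (S (P Λ q ⟨x, hx⟩) : EuclideanSpace ℝ (Fin N)) (S (P Λ q ⟨y, hy⟩)) *
      Real.exp (pS (cpl Λ q J) S)) * κ := by
    funext S; ring
  rw [h1, integral_mul_const, integral_mul_const, mul_div_mul_right _ _ hκ0]
  set X := P Λ q ⟨x, hx⟩
  set Y := P Λ q ⟨y, hy⟩
  have hcont : ∀ (i : Fin N) (z : Tor (4 * siz Λ q + 3)),
      Continuous fun S : Conf N (4 * siz Λ q + 3) => cc i (S z) := by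
    intro i z
    unfold cc
    fun_prop
  have hint : ∀ i : Fin N, Integrable (fun S : Conf N (4 * siz Λ q + 3) =>
      cc i (S X) * cc i (S Y) * Real.exp (pS (cpl Λ q J) S)) (prior N (4 * siz Λ q + 3)) := fun i =>
    integrable_prior N (4 * siz Λ q + 3) (((hcont i X).mul (hcont i Y)).mul
      (Real.continuous_exp.comp (continuous_pS (cpl Λ q J))))
  unfold corJ
  rw [← Finset.sum_div, ← integral_finsetSum _ fun i _ => hint i]
  congr 1
  refine integral_congr_ae (Filter.Eventually.of_forall fun S => ?_)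
  simp only
  rw [← Finset.sum_mul, PiLp.inner_apply]
  congr 1
  refine Finset.sum_congr rfl fun j _ => ?_
  simp [cc, mul_comm]

end transfer

/-! ### the bound in finite volume -/

theorem finite_bound (N : ℕ) (hN : 3 ≤ N) (A a : ℝ) (ha : 0 < a) (W : ℕ) :
    ∃ C m : ℝ, 0 < C ∧ 0 < m ∧ ∀ (V : Type) (p : V → ℝ × ℝ) (J : V → V → ℝ), CellBound p W →
      IsCoupling p A a J → ∀ (Λ : Finset V) (x y : V),
      0 ≤ corr N J Λ x y ∧ corr N J Λ x y ≤ C * Real.exp (-m * dist2 (p x) (p y)) := by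
  obtain ⟨a', ha'⟩ : ∃ a' : ℝ, a' = a / (2 * (W + 1)) := ⟨_, rfl⟩
  have ha'0 : 0 < a' := by rw [ha']; positivity
  obtain ⟨C, b, hC, hb, h⟩ := corJ_decay N hN (|A| * Real.exp a) a' (by positivity) ha'0
  have hN0 : N ≠ 0 := by omega
  refine ⟨N * (C * Real.exp (3 * b / 2)), b / 2, ?_, by positivity, ?_⟩
  · have : (0 : ℝ) < N := by exact_mod_cast Nat.pos_of_ne_zero hN0
    positivity
  intro V p J hp hJ Λ x y
  by_cases hxy : x ∈ Λ ∧ y ∈ Λ
  swap
  · have h0 : corr N J Λ x y = 0 := by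
      unfold corr
      rw [dif_neg hxy]
    rw [h0]
    exact ⟨le_rfl, by positivity⟩
  obtain ⟨hx, hy⟩ := hxy
  obtain ⟨idx, hidx, hinj⟩ := exists_idx Λ (fun x => (⌊(p x).1⌋, ⌊(p x).2⌋)) W (by
    intro w
    refine le_trans (Set.encard_le_encard ?_) (hp w.1 w.2)
    rintro x ⟨-, hx⟩
    exact ⟨congrArg Prod.fst hx, congrArg Prod.snd hx⟩)
  obtain ⟨q, hqdef⟩ : ∃ q : V → ℤ × ℤ, q = pos p W idx := ⟨_, rfl⟩
  have hq : ∀ x ∈ Λ, ∀ y ∈ Λ, q x = q y → x = y := by
    intro x hx y hy h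
    rw [hqdef] at h
    simp only [pos, Prod.mk.injEq] at h
    have hx1 := hidx x hx
    have hy1 := hidx y hy
    have h1 : (idx x : ℤ) = idx y := by
      have e := congrArg (fun t : ℤ => t % (W : ℤ)) h.1
      simp only [Int.mul_add_emod_self_left] at e
      rwa [Int.emod_eq_of_lt (by positivity) (by exact_mod_cast hx1),
        Int.emod_eq_of_lt (by positivity) (by exact_mod_cast hy1)] at e
    have h2 : (W : ℤ) * ⌊(p x).1⌋ = W * ⌊(p y).1⌋ := by linarith [h.1]
    have hW0 : (W : ℤ) ≠ 0 := by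
      have : 0 < W := by omega
      exact_mod_cast this.ne'
    have h3 : ⌊(p x).1⌋ = ⌊(p y).1⌋ := mul_left_cancel₀ hW0 h2
    exact hinj x hx y hy (Prod.ext h3 h.2) (by exact_mod_cast h1)
  have hE : ExpC (|A| * Real.exp a) a' (cpl Λ q J) := by
    refine expC_cpl Λ q J hq (by positivity) ?_
    intro x hx y hy hne
    obtain ⟨h1, h2⟩ := hJ x y hne
    refine ⟨h1, h2.trans ?_⟩
    have h3 := (pos_dist p W idx x y (hidx x hx) (hidx y hy)).1
    rw [← hqdef] at h3
    have h4 : a' * znorm (q y - q x) ≤ a * dist2 (p x) (p y) + a := by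
      have h5 := mul_le_mul_of_nonneg_left h3 ha'0.le
      refine h5.trans (le_of_eq ?_)
      rw [ha']
      field_simp
    calc A * Real.exp (-a * dist2 (p x) (p y)) ≤ |A| * Real.exp (-a * dist2 (p x) (p y)) :=
          mul_le_mul_of_nonneg_right (le_abs_self A) (Real.exp_pos _).le
      _ ≤ |A| * Real.exp (a + -a' * znorm (q y - q x)) := by
          refine mul_le_mul_of_nonneg_left (Real.exp_le_exp.2 ?_) (abs_nonneg _)
          linarith
      _ = |A| * Real.exp a * Real.exp (-a' * znorm (q y - q x)) := by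
          rw [Real.exp_add]; ring
  rw [corr_eq Λ q J hN0 hq hx hy]
  constructor
  · exact Finset.sum_nonneg fun i _ => corJ_nonneg hN0 (fun e => (hE e).1) i _ _
  · have h1 : ∀ i : Fin N, corJ (cpl Λ q J) i (P Λ q ⟨x, hx⟩) (P Λ q ⟨y, hy⟩) ≤
        C * Real.exp (3 * b / 2) * Real.exp (-(b / 2) * dist2 (p x) (p y)) := by
      intro i
      refine (h _ _ hE i _ _).trans ?_
      have h2 : tnorm (P Λ q ⟨x, hx⟩ - P Λ q ⟨y, hy⟩) = znorm (q x - q y) := tnorm_ct hx hy
      rw [h2, mul_assoc, ← Real.exp_add]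
      refine mul_le_mul_of_nonneg_left (Real.exp_le_exp.2 ?_) hC.le
      have h3 := (pos_dist p W idx x y (hidx x hx) (hidx y hy)).2
      rw [← hqdef] at h3
      nlinarith
    refine (Finset.sum_le_sum fun i _ => h1 i).trans (le_of_eq ?_)
    rw [Finset.sum_const, Finset.card_univ, Fintype.card_fin, nsmul_eq_mul]
    ring

/-! ### summation over the sites -/

theorem sum_sites (W : ℕ) {m : ℝ} (hm : 0 < m) : ∃ K : ℝ, 0 < K ∧ ∀ (V : Type) (p : V → ℝ × ℝ),
    CellBound p W → ∀ (Λ : Finset V) (x : V),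
      ∑ y ∈ Λ, Real.exp (-m * dist2 (p x) (p y)) ≤ K := by
  classical
  have hs := summable_exp_znorm (m / 2) (by positivity)
  have hT : 0 ≤ ∑' k : ℤ × ℤ, Real.exp (-(m / 2) * znorm k) :=
    tsum_nonneg fun k => (Real.exp_pos _).le
  refine ⟨W * Real.exp m * (∑' k : ℤ × ℤ, Real.exp (-(m / 2) * znorm k)) + 1, by positivity, ?_⟩
  intro V p hp Λ x
  let z : V → ℤ × ℤ := fun y => (⌊(p y).1⌋, ⌊(p y).2⌋)
  have hterm : ∀ y, Real.exp (-m * dist2 (p x) (p y)) ≤
      Real.exp m * Real.exp (-(m / 2) * znorm (z y - z x)) := by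
    intro y
    rw [← Real.exp_add]
    refine Real.exp_le_exp.2 ?_
    have a1 := Int.floor_le (p x).1
    have a2 := Int.lt_floor_add_one (p x).1
    have a3 := Int.floor_le (p y).1
    have a4 := Int.lt_floor_add_one (p y).1
    have b1 := Int.floor_le (p x).2
    have b2 := Int.lt_floor_add_one (p x).2
    have b3 := Int.floor_le (p y).2
    have b4 := Int.lt_floor_add_one (p y).2
    have d1 := abs_fst_le (p x) (p y)
    have d2 := abs_snd_le (p x) (p y)
    have h1 : |((⌊(p y).1⌋ : ℤ) : ℝ) - ((⌊(p x).1⌋ : ℤ) : ℝ)| ≤ dist2 (p x) (p y) + 1 := by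
      rw [abs_le] at d1 ⊢
      constructor <;> linarith
    have h2 : |((⌊(p y).2⌋ : ℤ) : ℝ) - ((⌊(p x).2⌋ : ℤ) : ℝ)| ≤ dist2 (p x) (p y) + 1 := by
      rw [abs_le] at d2 ⊢
      constructor <;> linarith
    have h3 := znorm_le (z y - z x)
    have h4 : znorm (z y - z x) ≤ 2 * dist2 (p x) (p y) + 2 := by
      refine h3.trans ?_
      simp only [z, Prod.fst_sub, Prod.snd_sub, Int.cast_sub]
      linarith
    nlinarith
  have hcard : ∀ w, ((Λ.filter fun y => z y = w).card : ℝ) ≤ W := by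
    intro w
    have h1 : ((Λ.filter fun y => z y = w : Finset V) : Set V).encard ≤ W := by
      refine le_trans (Set.encard_le_encard ?_) (hp w.1 w.2)
      intro y hy
      simp only [Finset.coe_filter, Set.mem_setOf_eq] at hy
      exact ⟨congrArg Prod.fst hy.2, congrArg Prod.snd hy.2⟩
    rw [Set.encard_coe_eq_coe_finsetCard] at h1
    exact_mod_cast h1
  have hsx : Summable fun w : ℤ × ℤ => Real.exp (-(m / 2) * znorm (w - z x)) :=
    (Equiv.subRight (z x)).summable_iff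
      (f := fun k : ℤ × ℤ => Real.exp (-(m / 2) * znorm k)) |>.2 hs
  have htx : ∑' w : ℤ × ℤ, Real.exp (-(m / 2) * znorm (w - z x)) =
      ∑' k : ℤ × ℤ, Real.exp (-(m / 2) * znorm k) :=
    (Equiv.subRight (z x)).tsum_eq fun k : ℤ × ℤ => Real.exp (-(m / 2) * znorm k)
  calc ∑ y ∈ Λ, Real.exp (-m * dist2 (p x) (p y))
      ≤ ∑ y ∈ Λ, Real.exp m * Real.exp (-(m / 2) * znorm (z y - z x)) :=
        Finset.sum_le_sum fun y _ => hterm y
    _ = Real.exp m * ∑ y ∈ Λ, Real.exp (-(m / 2) * znorm (z y - z x)) := by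
        rw [Finset.mul_sum]
    _ = Real.exp m * ∑ w ∈ Λ.image z, (Λ.filter fun y => z y = w).card •
        Real.exp (-(m / 2) * znorm (w - z x)) := by
        rw [Finset.sum_comp (fun w => Real.exp (-(m / 2) * znorm (w - z x))) z]
    _ ≤ Real.exp m * ∑ w ∈ Λ.image z, W * Real.exp (-(m / 2) * znorm (w - z x)) := by
        refine mul_le_mul_of_nonneg_left (Finset.sum_le_sum fun w _ => ?_) (Real.exp_pos _).le
        rw [nsmul_eq_mul]
        exact mul_le_mul_of_nonneg_right (hcard w) (Real.exp_pos _).le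
    _ = W * Real.exp m * ∑ w ∈ Λ.image z, Real.exp (-(m / 2) * znorm (w - z x)) := by
        rw [← Finset.mul_sum]; ring
    _ ≤ W * Real.exp m * ∑' k : ℤ × ℤ, Real.exp (-(m / 2) * znorm k) := by
        refine mul_le_mul_of_nonneg_left ?_ (by positivity)
        rw [← htx]
        exact hsx.sum_le_tsum _ fun w _ => (Real.exp_pos _).le
    _ ≤ _ := by linarith

/-! ### limits of tori -/

theorem torus_limit (N : ℕ) {C b A a : ℝ} (hC : 0 < C)
    (h : ∀ (L : ℕ) [NeZero L] (c : Tor L × Tor L → ℝ),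
      (∀ x y, 0 ≤ c (x, y) ∧ c (x, y) ≤ A * Real.exp (-a * tnorm (y - x))) →
        ∀ x y : Tor L, |torusCorr N c x y| ≤ C * Real.exp (-b * tnorm (x - y)))
    (l : ℕ → ℕ) (hl : Filter.Tendsto l Filter.atTop Filter.atTop)
    (c : ∀ n : ℕ, Tor (l n + 1) × Tor (l n + 1) → ℝ)
    (hc : ∀ n x y, 0 ≤ c n (x, y) ∧ c n (x, y) ≤ A * Real.exp (-a * tnorm (y - x)))
    (G : ℤ × ℤ → ℝ)
    (hlim : ∀ x : ℤ × ℤ, Filter.Tendsto
      (fun n => torusCorr N (c n) 0 ((x.1 : ZMod (l n + 1)), (x.2 : ZMod (l n + 1))))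
      Filter.atTop (nhds (G x))) :
    (∀ x, |G x| ≤ C * Real.exp (-b * znorm x)) ∧
      ∀ μ : ℝ, (∀ n : ℕ, 0 < G (n, 0)) →
        Filter.Tendsto (fun n : ℕ => -(1 / (n : ℝ)) * Real.log (G (n, 0))) Filter.atTop
          (nhds μ) → b ≤ μ := by
  have hbound : ∀ x, |G x| ≤ C * Real.exp (-b * znorm x) := by
    intro x
    refine le_of_tendsto (hlim x).abs ?_
    filter_upwards [hl.eventually_ge_atTop (2 * (x.1.natAbs + x.2.natAbs))] with n hn
    refine (h (l n + 1) (c n) (hc n) _ _).trans (le_of_eq ?_)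
    congr 2
    rw [zero_sub, tnorm_neg]
    have h1 : |x.1| * 2 < ((l n + 1 : ℕ) : ℤ) := by
      have : (|x.1| : ℤ) = x.1.natAbs := (Int.natCast_natAbs x.1).symm
      rw [this]; push_cast; omega
    have h2 : |x.2| * 2 < ((l n + 1 : ℕ) : ℤ) := by
      have : (|x.2| : ℤ) = x.2.natAbs := (Int.natCast_natAbs x.2).symm
      rw [this]; push_cast; omega
    have := tnorm_cast (L := l n + 1) x.1 x.2 (by exact_mod_cast h1) (by exact_mod_cast h2)
    rw [this]
    rfl
  refine ⟨hbound, ?_⟩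
  intro μ hpos hμ
  have hlow : ∀ᶠ n : ℕ in Filter.atTop, b - Real.log C / n ≤
      -(1 / (n : ℝ)) * Real.log (G (n, 0)) := by
    filter_upwards [Filter.eventually_gt_atTop 0] with n hn
    have hn' : (0 : ℝ) < n := by exact_mod_cast hn
    have h1 := hbound (n, 0)
    rw [abs_of_pos (hpos n)] at h1
    have h2 : znorm ((n : ℤ), (0 : ℤ)) = n := by
      unfold znorm
      simp
    rw [h2] at h1
    have h3 : Real.log (G (n, 0)) ≤ Real.log C + -b * n := by
      have := Real.log_le_log (hpos n) h1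
      rw [Real.log_mul hC.ne' (Real.exp_pos _).ne', Real.log_exp] at this
      exact this
    have h4 : b - Real.log C / n = -(1 / (n : ℝ)) * (Real.log C + -b * n) := by
      field_simp
      ring
    rw [h4]
    have h5 : (0 : ℝ) < 1 / n := by positivity
    nlinarith
  have hlim2 : Filter.Tendsto (fun n : ℕ => b - Real.log C / (n : ℝ)) Filter.atTop
      (nhds (b - 0)) :=
    tendsto_const_nhds.sub (tendsto_const_div_atTop_nhds_zero_nat _)
  rw [sub_zero] at hlim2
  exact le_of_tendsto_of_tendsto hlim2 hμ hlow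

/-- **Mass gap of all quasi-two-dimensional ferromagnetic N-vector models, `N ≥ 3`.** For every
`N ≥ 3`, all `A`, all `a > 0` and every `W` there are `C, m > 0` such that the following holds for
every set `V` of sites with a map `p : V → ℝ²` for which every unit cell contains at most `W` points
`p x`, and all couplings `J x y` (of arbitrary sign for `x = y`) with
`0 ≤ J x y ≤ A exp (-a |p x - p y|)` for `x ≠ y` (the inverse temperature is absorbed in `J`):
(1) in every finite subset `Λ` of `V`, `0 ≤ ⟨S_x · S_y⟩ ≤ C exp (-m |p x - p y|)`;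
(2) the susceptibility `∑_{y ∈ Λ} ⟨S_x · S_y⟩` is at most `C` for every finite `Λ` and every `x`;
(3) every infinite volume limit `G x y` of the two point functions satisfies the same bounds;
(4) such limits exist, along a subsequence of any sequence of finite sets, if `V` is countable.
Moreover (5) the same bound, with the same `C` and `m`, holds on all tori (periodic boundary
conditions) for all couplings `c (x, y)` between `0` and `A exp (-a |x - y|)`, and (6) for every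
infinite volume limit `G` of such models on tori, whose mass is therefore at least `m`. (The
periodised couplings `β ∑_k J (x - y + L k)` of a `J` as in Q1 are of this kind.) -/
theorem result (N : ℕ) (hN : 3 ≤ N) (A a : ℝ) (ha : 0 < a) (W : ℕ) :
    ∃ C m : ℝ, 0 < C ∧ 0 < m ∧
      (∀ (V : Type) (p : V → ℝ × ℝ) (J : V → V → ℝ), CellBound p W → IsCoupling p A a J →
        (∀ (Λ : Finset V) (x y : V),
          0 ≤ corr N J Λ x y ∧ corr N J Λ x y ≤ C * Real.exp (-m * dist2 (p x) (p y))) ∧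
        (∀ (Λ : Finset V) (x : V), ∑ y ∈ Λ, corr N J Λ x y ≤ C) ∧
        (∀ (Λ : ℕ → Finset V) (G : V → V → ℝ),
          (∀ x y, Filter.Tendsto (fun k => corr N J (Λ k) x y) Filter.atTop (nhds (G x y))) →
            (∀ x y, 0 ≤ G x y ∧ G x y ≤ C * Real.exp (-m * dist2 (p x) (p y))) ∧
            ∀ x, Summable (G x) ∧ ∑' y, G x y ≤ C) ∧
        (Countable V → ∀ Λ : ℕ → Finset V, ∃ (φ : ℕ → ℕ) (G : V → V → ℝ), StrictMono φ ∧
          ∀ x y, Filter.Tendsto (fun k => corr N J (Λ (φ k)) x y) Filter.atTop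
            (nhds (G x y)))) ∧
      (∀ (L : ℕ) [NeZero L] (c : Tor L × Tor L → ℝ),
        (∀ x y, 0 ≤ c (x, y) ∧ c (x, y) ≤ A * Real.exp (-a * tnorm (y - x))) →
        ∀ x y : Tor L, |torusCorr N c x y| ≤ C * Real.exp (-m * tnorm (x - y))) ∧
      ∀ (l : ℕ → ℕ), Filter.Tendsto l Filter.atTop Filter.atTop →
        ∀ c : ∀ n : ℕ, Tor (l n + 1) × Tor (l n + 1) → ℝ,
        (∀ n x y, 0 ≤ c n (x, y) ∧ c n (x, y) ≤ A * Real.exp (-a * tnorm (y - x))) →
        ∀ G : ℤ × ℤ → ℝ, (∀ x : ℤ × ℤ, Filter.Tendsto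
          (fun n => torusCorr N (c n) 0 ((x.1 : ZMod (l n + 1)), (x.2 : ZMod (l n + 1))))
          Filter.atTop (nhds (G x))) →
        (∀ x, |G x| ≤ C * Real.exp (-m * znorm x)) ∧
        ∀ μ : ℝ, (∀ n : ℕ, 0 < G (n, 0)) →
          Filter.Tendsto (fun n : ℕ => -(1 / (n : ℝ)) * Real.log (G (n, 0))) Filter.atTop
            (nhds μ) → m ≤ μ := by
  obtain ⟨C₁, m₁, hC₁, hm₁, h₁⟩ := finite_bound N hN A a ha W
  obtain ⟨C₂, m₂, hC₂, hm₂, h₂⟩ := torusJ_decay N hN |A| a (abs_nonneg A) ha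
  obtain ⟨m, hm⟩ : ∃ m : ℝ, m = min m₁ m₂ := ⟨_, rfl⟩
  have hm0 : 0 < m := by rw [hm]; exact lt_min hm₁ hm₂
  have hmm₁ : m ≤ m₁ := by rw [hm]; exact min_le_left _ _
  have hmm₂ : m ≤ m₂ := by rw [hm]; exact min_le_right _ _
  obtain ⟨K, hK, hsum⟩ := sum_sites W hm0
  obtain ⟨C, hC⟩ : ∃ C : ℝ, C = C₁ * (1 + K) + C₂ := ⟨_, rfl⟩
  have hC0 : 0 < C := by rw [hC]; positivity
  have hCC₁ : C₁ ≤ C := by rw [hC]; nlinarith
  have hCC₂ : C₂ ≤ C := by rw [hC]; nlinarith
  have hCK : C₁ * K ≤ C := by rw [hC]; nlinarith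
  have hb : ∀ (V : Type) (p : V → ℝ × ℝ) (J : V → V → ℝ), CellBound p W → IsCoupling p A a J →
      ∀ (Λ : Finset V) (x y : V),
      0 ≤ corr N J Λ x y ∧ corr N J Λ x y ≤ C₁ * Real.exp (-m * dist2 (p x) (p y)) := by
    intro V p J hp hJ Λ x y
    obtain ⟨h3, h4⟩ := h₁ V p J hp hJ Λ x y
    refine ⟨h3, h4.trans (mul_le_mul_of_nonneg_left (Real.exp_le_exp.2 ?_) hC₁.le)⟩
    have := dist2_nonneg (p x) (p y)
    nlinarith
  have htor : ∀ (L : ℕ) [NeZero L] (c : Tor L × Tor L → ℝ),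
      (∀ x y, 0 ≤ c (x, y) ∧ c (x, y) ≤ A * Real.exp (-a * tnorm (y - x))) →
      ∀ x y : Tor L, |torusCorr N c x y| ≤ C * Real.exp (-m * tnorm (x - y)) := by
    intro L _ c hc x y
    have hE : ExpC |A| a c := by
      intro e
      refine ⟨(hc e.1 e.2).1, (hc e.1 e.2).2.trans ?_⟩
      exact mul_le_mul_of_nonneg_right (le_abs_self A) (Real.exp_pos _).le
    have h3 := h₂ L c hE x y
    refine le_trans h3 ?_
    refine mul_le_mul hCC₂ (Real.exp_le_exp.2 ?_) (Real.exp_pos _).le hC0.le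
    have := tnorm_nonneg (x - y)
    nlinarith
  refine ⟨C, m, hC0, hm0, ?_, htor, fun l hl c hc G hG => torus_limit N hC0 htor l hl c hc G hG⟩
  · intro V p J hp hJ
    have hb' : ∀ (Λ : Finset V) (x y : V),
        0 ≤ corr N J Λ x y ∧ corr N J Λ x y ≤ C * Real.exp (-m * dist2 (p x) (p y)) := by
      intro Λ x y
      obtain ⟨h3, h4⟩ := hb V p J hp hJ Λ x y
      exact ⟨h3, h4.trans (mul_le_mul_of_nonneg_right hCC₁ (Real.exp_pos _).le)⟩
    refine ⟨hb', ?_, ?_, ?_⟩
    · intro Λ x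
      calc ∑ y ∈ Λ, corr N J Λ x y ≤ ∑ y ∈ Λ, C₁ * Real.exp (-m * dist2 (p x) (p y)) :=
            Finset.sum_le_sum fun y _ => (hb V p J hp hJ Λ x y).2
        _ = C₁ * ∑ y ∈ Λ, Real.exp (-m * dist2 (p x) (p y)) := by rw [Finset.mul_sum]
        _ ≤ C₁ * K := mul_le_mul_of_nonneg_left (hsum V p hp Λ x) hC₁.le
        _ ≤ C := hCK
    · intro Λ G hG
      have hG1 : ∀ x y, 0 ≤ G x y ∧ G x y ≤ C₁ * Real.exp (-m * dist2 (p x) (p y)) := by
        intro x y
        exact ⟨ge_of_tendsto' (hG x y) fun k => (hb V p J hp hJ (Λ k) x y).1,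
          le_of_tendsto' (hG x y) fun k => (hb V p J hp hJ (Λ k) x y).2⟩
      refine ⟨fun x y => ⟨(hG1 x y).1, (hG1 x y).2.trans
        (mul_le_mul_of_nonneg_right hCC₁ (Real.exp_pos _).le)⟩, fun x => ?_⟩
      have hfin : ∀ u : Finset V, ∑ y ∈ u, G x y ≤ C := by
        intro u
        calc ∑ y ∈ u, G x y ≤ ∑ y ∈ u, C₁ * Real.exp (-m * dist2 (p x) (p y)) :=
              Finset.sum_le_sum fun y _ => (hG1 x y).2
          _ = C₁ * ∑ y ∈ u, Real.exp (-m * dist2 (p x) (p y)) := by rw [Finset.mul_sum]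
          _ ≤ C₁ * K := mul_le_mul_of_nonneg_left (hsum V p hp u x) hC₁.le
          _ ≤ C := hCK
      have hsm : Summable (G x) := summable_of_sum_le (fun y => (hG1 x y).1) hfin
      exact ⟨hsm, hsm.tsum_le_of_sum_le hfin⟩
    · intro hV Λ
      have hcomp : IsCompact (Set.pi Set.univ fun _ : V × V => Set.Icc (0 : ℝ) C) :=
        isCompact_univ_pi fun _ => isCompact_Icc
      obtain ⟨G, -, φ, hφ, hlim⟩ := hcomp.tendsto_subseq
        (x := fun k => fun r : V × V => corr N J (Λ k) r.1 r.2) (fun k r _ => by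
          refine ⟨(hb' (Λ k) r.1 r.2).1, (hb' (Λ k) r.1 r.2).2.trans ?_⟩
          have h3 : Real.exp (-m * dist2 (p r.1) (p r.2)) ≤ 1 := by
            refine Real.exp_le_one_iff.2 ?_
            have := dist2_nonneg (p r.1) (p r.2)
            nlinarith
          nlinarith)
      have hlim' := tendsto_pi_nhds.1 hlim
      exact ⟨φ, fun x y => G (x, y), hφ, fun x y => hlim' (x, y)⟩

end Pool.Agent.Results.MP_8be4c0_mp.QuasiTwoDimensional
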